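import Pool.Agent.Work.MP_c9932b_sb_helper81.FinB

/-!
# Definitions for the results on one single instance of the bounded Matiyasevich conjecture
-/

set_option autoImplicit false

namespace Pool.SBM.helper82

/-- The bounded formula `φ`, with the free variables `0, ..., n - 1`, is equivalent to an existential
formula in all models of `IΔ₀ + BΣ₁`. -/
def ExistentialIn (φ : D0) (n : ℕ) : Prop :=
  ∃ (l : ℕ) (χ : Opn),
    ∀ (R : Type) [CommRing R] [LinearOrder R] [IsStrictOrderedRing R], IDelta0 R → BSigma1 R →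
    ∀ x : Fin n → R, (∀ i, 0 ≤ x i) →
      (φ.eval (ev x) ↔ ∃ z : Fin l → R, (∀ i, 0 ≤ z i) ∧ χ.eval (cat x z))

/-- The universal bounded formula with 20 free variables: `∀ y ≤ v₁₆ ∃ b ≤ v₁₉ ∃ c, d ≤ v₁₉⁶ U`, with
`U` the universal bounded formula for open formulas of `Pool.SBM`. -/
def PsiSix : D0 := Pool.SBM.helper81.Psi 6

/-- 17 natural numbers, the first entry `x₁` of the tuple `x` and the two continuants
`K(x₁+1, ..., x_r+1)` and `K(x₂+1, ..., x_r+1)`. -/
def par {R : Type} [CommRing R] {s : ℕ} (p : ℕ → ℕ) (x : Fin (s + 1) → R) : Fin 20 → R := fun i =>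
  if i.val < 17 then ((p i.val : ℕ) : R) else if i.val = 17 then x 0
  else if i.val = 18 then (kpx x).1 else (kpx x).2

/-- One open formula `U` with `L` witnesses serves for all open formulas `θ`: it is only needed to
substitute 17 natural numbers, `x₁` and two polynomials of `x`. -/
def OneOpenFormula (L : ℕ) (U : Opn) : Prop :=
  ∀ (s l : ℕ) (θ : Opn), ∃ p : ℕ → ℕ,
    ∀ (R : Type) [CommRing R] [LinearOrder R] [IsStrictOrderedRing R], IDelta0 R → BSigma1 R →
    ∀ x : Fin (s + 1) → R, (∀ i, 0 ≤ x i) →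
      ((∀ y : R, 0 ≤ y → y ≤ x 0 →
          ∃ z : Fin l → R, (∀ i, 0 ≤ z i) ∧ θ.eval (push y (cat x z))) ↔
        ∃ z' : Fin L → R, (∀ i, 0 ≤ z' i) ∧ U.eval (cat (par p x) z'))

end Pool.SBM.helper82
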