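import Pool.Agent.Work.MP_c9932b_h82.Defs
import Pool.Agent.Work.MP_c9932b_sb_helper81.FIN
import Pool.Agent.Work.MP_c9932b_sb_helper36.CONV
import Pool.Agent.Work.MP_c9932b_sb_helper54.EXI

set_option autoImplicit false

open Finset

namespace Pool.SBM.helper82

open Pool.SBM.helper81

/-- the renaming of the variables -/
def rho : ℕ → Tm := fun i => if i < 16 then .var i else .var (i + 1)

lemma rho_eval {R : Type} [CommRing R] {s l0 : ℕ} (p : ℕ → ℕ) (x : Fin (s + 1) → R)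
    (z' : Fin (l0 + 1) → R) :
    (fun i => (rho i).eval (cat (par p x) z')) =
      cat (x20 p x (z' 0)) (fun j : Fin l0 => z' j.succ) := by
  funext i
  unfold rho
  by_cases h1 : i < 16
  · have h2 : i < 20 := by omega
    have h3 : i < 17 := by omega
    simp only [if_pos h1, Tm.eval_var, cat, dif_pos h2, par, if_pos h3, x20]
  rw [if_neg h1, Tm.eval_var]
  by_cases h3 : i = 16
  · subst h3; simp [cat, x20, par]
  by_cases h4 : i = 17
  · subst h4; simp [cat, x20, par]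
  by_cases h5 : i = 18
  · subst h5; simp [cat, x20, par]
  obtain ⟨k, rfl⟩ : ∃ k, i = 19 + k := ⟨i - 19, by omega⟩
  have e0 : 19 + k + 1 = 20 + k := by omega
  rw [e0, cat_add]
  by_cases h6 : k = 0
  · subst h6
    simp [cat, x20, ev]
  · obtain ⟨j, rfl⟩ : ∃ j, k = j + 1 := ⟨k - 1, by omega⟩
    have e1 : 19 + (j + 1) = 20 + j := by omega
    rw [e1, cat_add]
    unfold ev
    by_cases h10 : j < l0
    · have h11 : j + 1 < l0 + 1 := by omega
      rw [dif_pos h11, dif_pos h10]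
      rfl
    · have h11 : ¬ j + 1 < l0 + 1 := by omega
      rw [dif_neg h11, dif_neg h10]

/-- the substitution of numerals and polynomials -/
def tau2 (s : ℕ) (p : ℕ → ℕ) : ℕ → Tm := fun i =>
  if i < 17 then Tm.num (p i) else if i = 17 then .var 0
  else if i = 18 then (kpT (List.ofFn fun j : Fin (s + 1) => Tm.add (.var j) .one)).1
  else if i = 19 then (kpT (List.ofFn fun j : Fin (s + 1) => Tm.add (.var j) .one)).2
  else .var (s + 1 + (i - 20))

lemma tau2_eval {R : Type} [CommRing R] {s L : ℕ} (p : ℕ → ℕ) (x : Fin (s + 1) → R)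
    (z' : Fin L → R) :
    (fun i => (tau2 s p i).eval (cat x z')) = cat (par p x) z' := by
  have hk : ((kpT (List.ofFn fun j : Fin (s + 1) => Tm.add (.var j) .one)).1.eval (cat x z'),
      (kpT (List.ofFn fun j : Fin (s + 1) => Tm.add (.var j) .one)).2.eval (cat x z')) = kpx x := by
    rw [kpT_eval]
    unfold kpx
    congr 1
    rw [List.map_ofFn]
    congr 1
    funext j
    simp [cat_lt]
  have hk1 := congrArg Prod.fst hk
  have hk2 := congrArg Prod.snd hk
  simp only at hk1 hk2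
  funext i
  unfold tau2
  by_cases h1 : i < 17
  · have h2 : i < 20 := by omega
    simp only [if_pos h1, Tm.eval_num, cat, dif_pos h2, par]
  rw [if_neg h1]
  by_cases h3 : i = 17
  · subst h3
    simp [cat, par]
  rw [if_neg h3]
  by_cases h4 : i = 18
  · subst h4
    rw [if_pos rfl, hk1]
    simp [cat, par]
  rw [if_neg h4]
  by_cases h5 : i = 19
  · subst h5
    rw [if_pos rfl, hk2]
    simp [cat, par]
  rw [if_neg h5, Tm.eval_var, cat_add]
  obtain ⟨k, rfl⟩ : ∃ k, i = 20 + k := ⟨i - 20, by omega⟩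
  rw [cat_add]
  congr 1
  omega

/-- one open formula is enough for `BMC` -/
theorem bmc_of_one {L : ℕ} {U : Opn} (h : OneOpenFormula L U) : BMC := by
  intro s l θ
  obtain ⟨p, hp⟩ := h s l θ
  refine ⟨L, U.subst (tau2 s p), ?_⟩
  intro R _ _ _ hI hB x hx
  rw [hp R hI hB x hx]
  refine exists_congr fun z' => and_congr_right fun _ => ?_
  rw [Opn.eval_subst, tau2_eval]

/-- from one existential formula for `PsiSix` to one open formula for all `θ` -/
theorem one_of_psi (hUNI : Stmt_UNI) (hPACK : Stmt_PACK) (hKSZ : Stmt_KSZ) (hDIV : Stmt_DIV)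
    (h : ExistentialIn PsiSix 20) : ∃ (L : ℕ) (U : Opn), OneOpenFormula L U := by
  obtain ⟨l0, χ, hχ⟩ := h
  refine ⟨l0 + 1, .and (.le (.var 16) (.var 20)) (χ.subst rho), ?_⟩
  intro s l θ
  obtain ⟨n, φ, T0p, hpack⟩ := hPACK 1 s l θ
  obtain ⟨pm, T0u, huni⟩ := hUNI n φ
  obtain ⟨T0, hT0⟩ : ∃ T0 : ℕ, T0 = T0p + T0u + 1 := ⟨_, rfl⟩
  refine ⟨fun i => if i < 16 then pm i else T0, ?_⟩
  intro R _ _ _ hR hB x hx
  have hdisc := hR.disc
  have hpar : ∀ z' : Fin (l0 + 1) → R,
      cat (par (fun i => if i < 16 then pm i else T0) x) z' 16 = (T0 : R) ∧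
      cat (par (fun i => if i < 16 then pm i else T0) x) z' 20 = z' 0 := by
    intro z'
    refine ⟨by simp [cat, par], ?_⟩
    have := cat_add (par (fun i => if i < 16 then pm i else T0) x) z' 0
    simpa [ev] using this
  have hx20 : ∀ t : R, x20 (fun i => if i < 16 then pm i else T0) x t = x20 pm x t := by
    intro t
    funext i
    unfold x20
    by_cases h1 : i.val < 16
    · simp [h1]
    · simp only [if_neg h1]
  have hev1 : ∀ (z' : Fin (l0 + 1) → R),
      (Opn.and (.le (.var 16) (.var 20)) (χ.subst rho)).eval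
        (cat (par (fun i => if i < 16 then pm i else T0) x) z') ↔
        (T0 : R) ≤ z' 0 ∧ χ.eval (cat (x20 pm x (z' 0)) (fun j : Fin l0 => z' j.succ)) := by
    intro z'
    rw [Opn.eval_and, Opn.eval_le, Opn.eval_subst, rho_eval, Tm.eval_var, Tm.eval_var,
      (hpar z').1, (hpar z').2, hx20]
  obtain ⟨hX0, hY0, hX1, hY1⟩ := hKSZ R (s + 1) x hx
  have hcons : ∀ t : R, (T0 : R) ≤ t → (T0p : R) ≤ t ∧ (T0u : R) ≤ t ∧ (1 : R) ≤ t := by
    intro t ht
    have key : ∀ k : ℕ, k ≤ T0 → (k : R) ≤ t := fun k hk => le_trans (by exact_mod_cast hk) ht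
    refine ⟨key _ (by omega), key _ (by omega), ?_⟩
    have := key 1 (by omega)
    exact_mod_cast this
  have hxv : ∀ t : R, 0 ≤ t → ∀ i, 0 ≤ x20 pm x t i := by
    intro t ht i
    unfold x20
    split_ifs with h1
    · exact Nat.cast_nonneg _
    · exact hx 0
    · exact hX0
    · exact hY0
    · exact ht
  constructor
  · intro H
    -- collection
    obtain ⟨ψ, hψ⟩ := Pool.SBM.helper36.bexθ s l θ
    have key : ∀ y : R, 0 ≤ y → y < x 0 + 1 →
        ∃ w : R, 0 ≤ w ∧ ψ.eval (push w (push y (ev x))) := by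
      intro y hy hyx
      have hyx' : y ≤ x 0 := by
        by_contra hc
        have := hdisc (y - x 0) (by linarith [not_le.1 hc])
        linarith
      obtain ⟨z, hz, hθ⟩ := H y hy hyx'
      refine ⟨∑ i, z i, Finset.sum_nonneg fun i _ => hz i, ?_⟩
      rw [hψ]
      exact ⟨z, fun i => ⟨hz i, Finset.single_le_sum (fun j _ => hz j) (Finset.mem_univ i)⟩, hθ⟩
    obtain ⟨Z, hZ, hb⟩ := hB ψ (ev x) (x 0 + 1) (Pool.SBM.helper36.ev_nonneg hx)
      (by linarith [hx 0]) key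
    obtain ⟨t, ht⟩ : ∃ t : R, t = (T0 : R) + ∏ i, (x i + 1) + (Z + 1) ^ l := ⟨_, rfl⟩
    have hp0 : 0 ≤ ∏ i, (x i + 1) := Finset.prod_nonneg fun i _ => by linarith [hx i]
    have hZ0 : 0 ≤ (Z + 1) ^ l := by positivity
    have hT00 : (0 : R) ≤ (T0 : R) := Nat.cast_nonneg _
    have htT : (T0 : R) ≤ t := by rw [ht]; linarith
    obtain ⟨k1, k2, k3⟩ := hcons t htT
    have hxp : ∏ i, (x i + 1) ≤ t ^ 1 := by rw [pow_one, ht]; linarith
    have ht0 : 0 ≤ t := by linarith
    have hPsi : PsiSix.eval (ev (x20 pm x t)) := by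
      unfold PsiSix
      rw [Psi_eval]
      have e16 : ev (x20 pm x t) 16 = x 0 := by simp [ev, x20]
      have e19 : ev (x20 pm x t) 19 = t := by simp [ev, x20]
      rw [e16, e19]
      intro y hy0 hy1
      obtain ⟨w, hw, hwZ, hw2⟩ := hb y hy0 (by linarith)
      rw [hψ] at hw2
      obtain ⟨z, hz, hzθ⟩ := hw2
      have hzp : ∏ i, (z i + 1) ≤ t ^ 1 := by
        have h1 : ∏ i, (z i + 1) ≤ ∏ _i : Fin l, (Z + 1) :=
          Finset.prod_le_prod (fun i _ => by linarith [(hz i).1])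
            fun i _ => by linarith [(hz i).2]
        have h2 : ∏ _i : Fin l, (Z + 1) = (Z + 1) ^ l := by simp
        rw [pow_one, ht]
        linarith
      obtain ⟨b, c', d', hb0, hb1, hc0, hc1, hd0, hd1, a, ha, hφ⟩ :=
        (hpack R hR).1 t y x z k1 hy0 hx (fun i => (hz i).1) hxp hzp hzθ
      refine ⟨b, hb0, hb1, c', hc0, hc1, d', hd0, hd1, ?_⟩
      obtain ⟨v1, v2, v3, v4, v5, v6, v7⟩ := valU_cond (E := 6) (by norm_num) pm hx hX0 hY0 k3
        hy0 hy1 hb0 hb1 hc0 hc1 hd0 hd1 k2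
      rw [huni R hR _ v1 v2 v3 v4 a (by rw [v5, v6]; exact ha), v7]
      exact hφ
    obtain ⟨z, hz, hzχ⟩ := (hχ R hR hB (x20 pm x t) (hxv t ht0)).1 hPsi
    refine ⟨Fin.cons t z, ?_, ?_⟩
    · intro i
      refine Fin.cases ?_ (fun j => ?_) i
      · exact ht0
      · exact hz j
    · rw [hev1]
      refine ⟨by simpa using htT, ?_⟩
      simpa using hzχ
  · rintro ⟨z', hz', h⟩
    rw [hev1] at h
    obtain ⟨hT, hχ'⟩ := h
    obtain ⟨k1, k2, k3⟩ := hcons (z' 0) hT
    have hPsi := (hχ R hR hB (x20 pm x (z' 0)) (hxv _ (hz' 0))).2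
      ⟨fun j => z' j.succ, fun j => hz' _, hχ'⟩
    unfold PsiSix at hPsi
    rw [Psi_eval] at hPsi
    have e16 : ev (x20 pm x (z' 0)) 16 = x 0 := by simp [ev, x20]
    have e19 : ev (x20 pm x (z' 0)) 19 = z' 0 := by simp [ev, x20]
    rw [e16, e19] at hPsi
    intro y hy0 hy1
    obtain ⟨b, hb0, hb1, c', hc0, hc1, d', hd0, hd1, hU⟩ := hPsi y hy0 hy1
    choose a ha0 ha using fun j : Fin n => Bt_exists hR hDIV hc0 hd0 (j : ℕ)
    obtain ⟨v1, v2, v3, v4, v5, v6, v7⟩ := valU_cond (E := 6) (by norm_num) pm hx hX0 hY0 k3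
      hy0 hy1 hb0 hb1 hc0 hc1 hd0 hd1 k2
    rw [huni R hR _ v1 v2 v3 v4 a (by rw [v5, v6]; exact fun j => ⟨ha0 j, ha j⟩), v7] at hU
    exact (hpack R hR).2 y b x a hy0 hb0 hx ha0 hU

end Pool.SBM.helper82
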